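import Pool.Agent.U901.TZ.Defs
import Pool.Agent.R470.Keller.Tz

/-! Composites of Keller maps of the plane; automorphisms. -/

set_option autoImplicit false

open MvPolynomial

namespace Pool.Agent.U901.TZ

theorem aeval_comp (p q : Fin 2 → P2) (f : P2) : aeval (comp p q) f = aeval q (aeval p f) := by
  have h1 : (aeval (comp p q) : P2 →ₐ[ℂ] P2) = (aeval q : P2 →ₐ[ℂ] P2).comp (aeval p) := by
    apply MvPolynomial.algHom_ext
    intro j
    rw [AlgHom.comp_apply, aeval_X, aeval_X]
    rfl
  exact congrArg (fun g => g f) h1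

theorem deriv_aeval (g : Fin 2 → P2) (f : P2) (j : Fin 2) :
    pderiv j (aeval g f) = aeval g (pderiv 0 f) * pderiv j (g 0) +
      aeval g (pderiv 1 f) * pderiv j (g 1) := by
  induction f using MvPolynomial.induction_on with
  | C a => simp [MvPolynomial.algebraMap_eq]
  | add p q hp hq =>
    rw [map_add, map_add, hp, hq]
    simp only [map_add]
    ring
  | mul_X p i hp =>
    rw [map_mul, aeval_X, Derivation.leibniz, hp, smul_eq_mul, smul_eq_mul]
    simp only [Derivation.leibniz, smul_eq_mul, map_add, map_mul, aeval_X]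
    fin_cases i
    · simp
      ring
    · simp
      ring

theorem Keller.comp {p q : Fin 2 → P2} (hp : Keller p) (hq : Keller q) :
    Keller (TZ.comp p q) := by
  obtain ⟨c, hc, h⟩ := hp
  obtain ⟨d, hd, h'⟩ := hq
  refine ⟨c * d, mul_ne_zero hc hd, ?_⟩
  have e := congrArg (aeval q : P2 →ₐ[ℂ] P2) h
  rw [map_sub, map_mul, map_mul, aeval_C] at e
  show pderiv 0 (aeval q (p 0)) * pderiv 1 (aeval q (p 1)) -
    pderiv 1 (aeval q (p 0)) * pderiv 0 (aeval q (p 1)) = C (c * d)
  rw [deriv_aeval, deriv_aeval, deriv_aeval, deriv_aeval, C_mul, ← h']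
  rw [MvPolynomial.algebraMap_eq] at e
  rw [← e]
  ring

theorem inj_of_surj (φ : P2 →+* P2) (hs : Function.Surjective φ) : Function.Injective φ := by
  rw [injective_iff_map_eq_zero]
  intro x hx
  have hsn : ∀ n : ℕ, Function.Surjective (φ ^ n) := by
    intro n
    rw [RingHom.coe_pow]
    exact hs.iterate n
  obtain ⟨n, hn⟩ := monotone_stabilizes_iff_noetherian.mpr (inferInstance : IsNoetherian P2 P2)
    ⟨fun n : ℕ => RingHom.ker (φ ^ n), fun a b hab y hy => by
      obtain ⟨c, rfl⟩ := Nat.exists_eq_add_of_le hab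
      rw [RingHom.mem_ker] at hy ⊢
      rw [add_comm, pow_add, RingHom.mul_def, RingHom.comp_apply, hy, map_zero]⟩
  obtain ⟨y, rfl⟩ := hsn n x
  have h1 : y ∈ RingHom.ker (φ ^ (n + 1)) := by
    rw [RingHom.mem_ker, add_comm, pow_add, pow_one, RingHom.mul_def, RingHom.comp_apply]
    exact hx
  have h2 : RingHom.ker (φ ^ n) = RingHom.ker (φ ^ (n + 1)) := hn (n + 1) (Nat.le_succ n)
  rw [← h2, RingHom.mem_ker] at h1
  exact h1

theorem right_of_left {p q : Fin 2 → P2} (h : ∀ i, aeval q (p i) = X i) :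
    ∀ i, aeval p (q i) = X i := by
  have h1 : ∀ f : P2, aeval q (aeval p f) = f := by
    intro f
    rw [← aeval_comp]
    have : TZ.comp p q = X := funext h
    rw [this, aeval_X_left_apply]
  have hi := inj_of_surj (aeval q : P2 →ₐ[ℂ] P2).toRingHom fun f => ⟨aeval p f, h1 f⟩
  intro i
  apply hi
  show aeval q (aeval p (q i)) = aeval q (X i)
  rw [h1, aeval_X]

/-- The map is an automorphism of the plane. -/
def Aut (p : Fin 2 → P2) : Prop := ∃ q : Fin 2 → P2, ∀ i, aeval p (q i) = X i

theorem Aut.right {p q : Fin 2 → P2} (h : Aut (TZ.comp p q)) : Aut q := by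
  obtain ⟨r, hr⟩ := h
  refine ⟨fun i => aeval p (r i), fun i => ?_⟩
  rw [← aeval_comp]
  exact hr i

theorem Aut.left {p q : Fin 2 → P2} (h : Aut (TZ.comp p q)) : Aut p := by
  obtain ⟨s, hs⟩ := h.right
  obtain ⟨r, hr⟩ := h
  have hs' := right_of_left hs
  have hi := inj_of_surj (aeval q : P2 →ₐ[ℂ] P2).toRingHom (fun f => ⟨aeval s f, by
    show aeval q (aeval s f) = f
    rw [← aeval_comp]
    have : TZ.comp s q = X := funext hs
    rw [this, aeval_X_left_apply]⟩)
  have h2 : ∀ i, aeval p (r i) = s i := by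
    intro i
    apply hi
    show aeval q (aeval p (r i)) = aeval q (s i)
    rw [hs, ← aeval_comp, hr]
  refine ⟨fun i => aeval r (q i), fun i => ?_⟩
  rw [← aeval_comp]
  have : TZ.comp r p = s := funext h2
  rw [this]
  exact hs' i

theorem Aut.good {p : Fin 2 → P2} (h : Aut p) : Pool.Agent.H938R2.JC.Good (p 0) (p 1) := by
  refine Pool.Agent.R470.Keller.good_of_inv ?_
  have : (![p 0, p 1] : Fin 2 → P2) = p := by
    funext i
    fin_cases i <;> rfl
  rw [this]
  exact h

theorem aut_of_good {p : Fin 2 → P2} (h : Pool.Agent.H938R2.JC.Good (p 0) (p 1)) : Aut p := by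
  unfold Pool.Agent.H938R2.JC.Good at h
  have hr : ({p 0, p 1} : Set P2) = Set.range p := by
    ext x
    simp only [Set.mem_range, Fin.exists_fin_two, Set.mem_insert_iff, Set.mem_singleton_iff]
    rw [eq_comm (a := p 0), eq_comm (a := p 1)]
  rw [hr, Algebra.adjoin_range_eq_range_aeval] at h
  have h1 : ∀ i, ∃ g : P2, aeval p g = X i := by
    intro i
    have : (X i : P2) ∈ (aeval p : P2 →ₐ[ℂ] P2).range := by rw [h]; trivial
    exact this
  choose g hg using h1
  exact ⟨g, hg⟩

end Pool.Agent.U901.TZ
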