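import Mathlib

/-! Polynomial maps of the plane: composites, constant Jacobian determinants, few terms. -/

set_option autoImplicit false

open MvPolynomial

namespace Pool.Agent.U901.TZ

/-- Polynomials in two variables with complex coefficients. -/
abbrev P2 : Type := MvPolynomial (Fin 2) ℂ

/-- The polynomial map `p ∘ q` of the plane (first `q`, then `p`). -/
noncomputable def comp (p q : Fin 2 → P2) : Fin 2 → P2 := fun i => aeval q (p i)

/-- The Jacobian determinant of the polynomial map `p` is a nonzero constant. -/
def Keller (p : Fin 2 → P2) : Prop :=
  ∃ c : ℂ, c ≠ 0 ∧ pderiv 0 (p 0) * pderiv 1 (p 1) - pderiv 1 (p 0) * pderiv 0 (p 1) = C c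

/-- The weights `u i + v j` of the monomials `x ^ i y ^ j` of `f`. -/
def weights (u v : ℕ) (f : P2) : Finset ℕ := f.support.image fun d => u * d 0 + v * d 1

/-- The polynomial `f` has few terms: it has at most seven monomials besides the constant one, or there
are nonnegative integer weights `u`, `v` of the variables, not both zero, such that the weights of the
monomials of `f` take at most four values besides `0` and `min u v`. -/
def FewTerms (f : P2) : Prop :=
  (f.support.erase 0).card ≤ 7 ∨
    ∃ u v : ℕ, (u ≠ 0 ∨ v ≠ 0) ∧ (weights u v f \ {0, min u v}).card ≤ 4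

end Pool.Agent.U901.TZ
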